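import Pool.Agent.H78.GX.H78.GS.BUN
import Pool.Agent.H78.GX.H78.GS.TF3
import Pool.Agent.H78.GX.H30.GS3.CMP
import Pool.Agent.H78.GX.H30.GS3.GRD
import Pool.Agent.H78.GX.H13.GSA.ACTP
import Pool.Agent.H78.GX.H17.GSA.DIC
import Pool.Agent.H78.GX.H17.GSA.GDA
import Pool.Agent.H78.GX.H43.GS3.DSP
import Pool.Agent.H78.GX.H43.GS3.IND
import Pool.Agent.H78.GX.H85.GS3.GDP
import Pool.Agent.H78.GX.H85.GS3.UNI
import Pool.Agent.H78.GX.H5.GS3.AGDS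
import Pool.Agent.H78.GX.H67.G3.MNS
import Pool.Agent.H78.GX.H80.GS3.PIB
import Pool.Agent.H78.GX.H50.GS3.AQCO
import Pool.Agent.H78.GX.H51.GS3.ARNK
import Pool.Agent.H78.GX.H7.GS3.SBI
import Pool.Agent.H78.GX.H36.GS.STA
import Pool.Agent.H78.GX.H73.G3.ASTP
import Pool.Agent.H78.GX.H52.G3.AUNQ
import Pool.Agent.H78.GX.H78.GS.RST
import Pool.Agent.H78.GX.H10.G3.CTX
import Pool.Agent.H78.GX.H40.GS.AEXC
import Pool.Agent.H78.GX.H35.G3.FFAE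
import Pool.Agent.H78.GX.H38.GS3.HCE
import Pool.Agent.H78.GX.H38.GS3.FAS
import Pool.Agent.H78.GX.H55.G3.LCE
import Pool.Agent.H78.GX.H63.G3.FLCS
import Pool.Agent.H78.GX.H63.G3.FPHS
import Pool.Agent.H78.GX.H85.GS3.MAS
import Pool.Agent.H78.GX.H85.GS3.NUM
import Pool.Agent.H78.GX.H50.GS3.FPAR
import Pool.Agent.H78.GX.H80.GS3.PHE
import Pool.Agent.H78.GX.H51.GS3.FRAS
import Pool.Agent.H78.GX.H21.GS3.PRE
import Pool.Agent.H78.GX.H1.N4D.SIZ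
import Pool.Agent.H78.GX.H1.N4D.WTS
import Pool.Agent.H78.GX.H1.N4D.WLG
import Pool.Agent.H78.GX.H17.N4D.PWP
import Pool.Agent.H78.GX.H38.N4D.PRI
import Pool.Agent.H78.GX.H51.N4D.LOC
import Pool.Agent.H78.GX.H59.N4D.MAC
import Pool.Agent.H78.GX.H59.N4D.POS
import Pool.Agent.H78.GX.H67.N4D.MER
import Pool.Agent.H78.GX.H72.N4D.CONS
import Pool.Agent.H78.GX.H72.N4D.PI
import Pool.Agent.H78.GX.H81.N4D.CUT
import Pool.Agent.H78.GX.H81.N4D.TWO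
import Pool.Agent.H78.GX.H91.N4D.CHI
import Pool.Agent.H78.GX.H95.N4D.AVG
import Pool.Agent.H78.GX.H95.N4D.SPC
import Pool.Agent.H78.GX.H96.N4D.PSP
import Pool.Agent.H78.GX.H97.N4D.SQR
import Pool.Agent.H78.GX.H83.GS.PSC
import Pool.Agent.H78.GX.H83.GS.SPX
import Pool.Agent.H78.GX.H83.GS.MPX
import Pool.Agent.H78.GX.H83.GS.PWX
import Pool.Agent.H78.GX.H83.GS.FINX
import Pool.Agent.H78.GX.H83.GS.TX2
import Pool.Agent.H83.GS.All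

/-!
# Section 3a with `P` decoupled: composition
-/

set_option autoImplicit false

namespace Pool.Agent.H78.GX.All

open Pool.Agent.H78.GX.H78.GS Pool.Agent.H78.GX.H6.N4D Pool.Agent.H78.GX.H83.GS

theorem tAVG : T_AVG := Pool.Agent.H78.GX.H95.N4D.pf_AVG
theorem tCHI : T_CHI := Pool.Agent.H78.GX.H91.N4D.pf_CHI
theorem tPOS : T_POS := Pool.Agent.H78.GX.H59.N4D.pf_POS
theorem tSPC : T_SPC := Pool.Agent.H78.GX.H95.N4D.pf_SPC tPOS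
theorem tMER : T_MER := Pool.Agent.H78.GX.H67.N4D.pf_MER
theorem tWTS : T_WTS := Pool.Agent.H78.GX.H1.N4D.pf_WTS tMER
theorem tSIZ : T_SIZ := Pool.Agent.H78.GX.H1.N4D.pf_SIZ
theorem tPWP : T_PWP := Pool.Agent.H78.GX.H17.N4D.pf_PWP tWTS tAVG tSIZ
theorem tCUT : T_CUT := Pool.Agent.H78.GX.H81.N4D.pf_CUT tCHI
theorem tSQR : T_SQR := Pool.Agent.H78.GX.H97.N4D.pf_SQR
theorem tLOC : T_LOC := Pool.Agent.H78.GX.H51.N4D.pf_LOC tSPC tPWP tCHI tCUT tSQR tWTS tSIZ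
theorem tPRI : T_PRI := Pool.Agent.H78.GX.H38.N4D.pf_PRI tSQR tWTS tSIZ
theorem tMAC : T_MAC := Pool.Agent.H78.GX.H59.N4D.pf_MAC tLOC tPRI tSIZ
theorem tCON : T_CON := Pool.Agent.H78.GX.H72.N4D.pf_CON tMAC tSIZ
theorem tTWO : T_TWO := Pool.Agent.H78.GX.H81.N4D.pf_TWO
theorem tWLG : T_WLG := Pool.Agent.H78.GX.H1.N4D.pf_WLG tMER
theorem tPI : T_PI := Pool.Agent.H78.GX.H72.N4D.pf_PI tCON tPRI tSIZ

theorem gPSC : T_PSC := pf_PSC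
theorem gSPX : T_SPX := pf_SPX gPSC
theorem gMPX : T_MPX := pf_MPX Pool.Agent.H20.VT.M1.pf_M1
theorem gPWX : T_PWX := pf_PWX tWTS tAVG tSIZ gMPX Pool.Agent.H83.VU.aGAP
theorem gFINX : T_FINX := pf_FINX gSPX gPWX tCHI tWTS tSIZ
theorem gRAT : T_RAT := Pool.Agent.H83.GS.gRAT

theorem aCTP : T_CTP := Pool.Agent.H78.GX.H13.GSA.pf_CTP
theorem aRNK : T_RNK := Pool.Agent.H78.GX.H51.GS3.pf_RNK tPI
theorem aSBI : T_SBI := Pool.Agent.H78.GX.H7.GS3.pf_SBI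
theorem aDIC : T_DIC := Pool.Agent.H78.GX.H17.GSA.pf_DIC
theorem aCMP : T_CMP := Pool.Agent.H78.GX.H30.GS3.pf_CMP
theorem aGRD : T_GRD := Pool.Agent.H78.GX.H30.GS3.pf_GRD
theorem aUNQ : T_UNQ := Pool.Agent.H78.GX.H52.G3.pf_UNQ
theorem aQCO : T_QCO := Pool.Agent.H78.GX.H50.GS3.pf_QCO
theorem aSTP : Pool.Agent.H78.GX.H78.GS.T_STP :=
  Pool.Agent.H78.GX.H73.G3.pf_STP aCMP aGRD aUNQ aQCO
theorem aSTA : T_STA := Pool.Agent.H78.GX.H36.GS.pf_STA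
theorem aIND : T_IND := Pool.Agent.H78.GX.H43.GS3.pf_IND aSTP tSIZ
theorem aGDS : T_GDS := Pool.Agent.H78.GX.H5.GS3.pf_GDS tSIZ aCTP
theorem aEXC : T_EXC := Pool.Agent.H78.GX.H40.GS.pf_EXC tTWO
theorem aCTX : T_CTX := Pool.Agent.H78.GX.H10.G3.pf_CTX
theorem aRST : T_RST := Pool.Agent.H78.GX.H78.GS.pf_RST aCTP
theorem aPIB : T_PIB := Pool.Agent.H78.GX.H80.GS3.pf_PIB aRNK aCTX aSBI tWTS
theorem aMNS : T_MNS := Pool.Agent.H78.GX.H67.G3.pf_MNS aRST aCTP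
theorem aUNI : T_UNI := Pool.Agent.H78.GX.H85.GS3.pf_UNI aEXC tSIZ
theorem aGDP : T_GDP := Pool.Agent.H78.GX.H85.GS3.pf_GDP aEXC tSIZ aCTP
theorem aGDA : T_GDA := Pool.Agent.H78.GX.H17.GSA.pf_GDA aGDP aGDS
theorem aDSP : T_DSP :=
  Pool.Agent.H78.GX.H43.GS3.pf_DSP aPIB aGDA aDIC aSTA aIND aCTP aRST tSIZ
theorem aPRE : T_PRE := Pool.Agent.H78.GX.H21.GS3.pf_PRE gRAT tWTS tSIZ
theorem aRAS : T_RAS := Pool.Agent.H78.GX.H51.GS3.pf_RAS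
theorem aPHE : T_PHE := Pool.Agent.H78.GX.H80.GS3.pf_PHE tSIZ
theorem aPHS : T_PHS := Pool.Agent.H78.GX.H63.G3.pf_PHS tSIZ
theorem aLCE : T_LCE := Pool.Agent.H78.GX.H55.G3.pf_LCE tSIZ
theorem aLCS : T_LCS := Pool.Agent.H78.GX.H63.G3.pf_LCS tSIZ
theorem aFAE : T_FAE := Pool.Agent.H78.GX.H35.G3.pf_FAE aRAS aPHE aLCE tSIZ
theorem aFAS : T_FAS := Pool.Agent.H78.GX.H38.GS3.pf_FAS aRAS aPHS aLCS tSIZ
theorem aHCE : T_HCE := Pool.Agent.H78.GX.H38.GS3.pf_HCE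
theorem aPAR : T_PAR := Pool.Agent.H78.GX.H50.GS3.pf_PAR
theorem aMAS : T_MAS := Pool.Agent.H78.GX.H85.GS3.pf_MAS aPAR
theorem aNUM : T_NUM := Pool.Agent.H78.GX.H85.GS3.pf_NUM aFAE aFAS aHCE aMAS gFINX aCTP tSIZ tWTS

/-- there is no bundle with the relations -/
theorem aBUN : T_BUN := pf_BUN aRNK aUNI aMNS aDSP aPRE aNUM aCTP tSIZ

end Pool.Agent.H78.GX.All
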