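import Pool.Agent.H6.N4D.Defs

/-!
# The structure of a stretch where `P` and `rho` are decoupled from `X`

As `Par.Ok`, with the condition on `rho` in terms of `P` only.
-/

set_option autoImplicit false

open Pool.Agent.H6.N4D

namespace Pool.Agent.H78.GX

/-- the conditions on the parameters, the condition on `rho` in terms of `P` -/
structure Okx (S : Par) : Prop where
  hX : 1 ≤ S.X
  hK : 1 ≤ S.K
  hh : 0 < S.h
  hJ : S.h * 2 ^ S.J = Real.log 2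
  hX5 : S.h * S.X ^ 5 ≤ 1
  hI1 : 12 * S.K * S.L ≤ S.N * S.h
  hI2 : S.N * S.h ≤ 13 * S.K * S.L
  hr0 : 0 < S.rho
  hr1 : S.rho * S.P ^ (100 * S.K) ≤ 1
  hra : S.P ^ (100 * S.K) ≤ S.rho * S.x S.a
  hb : S.x S.b ≤ S.X

variable {S : Par}

lemma Okx.P_one (h : Okx S) : 1 ≤ S.P :=
  Real.one_le_exp (Real.rpow_nonneg (Real.log_nonneg h.hX) _)

lemma Okx.L_nonneg (h : Okx S) : 0 ≤ S.L := Real.rpow_nonneg (Real.log_nonneg h.hX) _

lemma Okx.rho_mul (h : Okx S) {c : ℝ} (hc : c ≤ S.P ^ (100 * S.K)) : S.rho * c ≤ 1 :=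
  (mul_le_mul_of_nonneg_left hc h.hr0.le).trans h.hr1

lemma Okx.one_add_le (h : Okx S) : 1 + 100 * S.K * S.L ≤ S.P ^ (100 * S.K) := by
  rw [Par.P_pow]
  have h1 := Real.add_one_le_exp (((100 * S.K : ℕ) : ℝ) * S.L)
  push_cast at h1 ⊢
  linarith

lemma Okx.rho_one (h : Okx S) : S.rho ≤ 1 := by
  have h1 := h.rho_mul (one_le_pow₀ h.P_one)
  linarith

/-- `rho` is small -/
lemma Okx.rho_le (h : Okx S) {c : ℝ} (hc : c ≤ S.L) : S.rho * c ≤ 1 := by
  refine h.rho_mul (hc.trans ?_)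
  have h1 := h.one_add_le
  have h2 : (1 : ℝ) ≤ S.K := by exact_mod_cast h.hK
  have h3 := h.L_nonneg
  nlinarith

end Pool.Agent.H78.GX

namespace Pool.Agent.H78.GX.H6.N4D

end Pool.Agent.H78.GX.H6.N4D

namespace Pool.Agent.H78.GX.H78.GS

end Pool.Agent.H78.GX.H78.GS

namespace Pool.Agent.H78.GX.H95.N4D

end Pool.Agent.H78.GX.H95.N4D
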